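import Pool.Agent.Helper32.KD2.Basic
import Pool.Agent.Helper32.KD2.St.C2
import Pool.Agent.Helper32.KD2.St.C3

/-! KD2-C4: the jump system on the torus. -/

namespace KD.II.C4

open Finset MeasureTheory

theorem vma_cast' {N : ℕ} [NeZero N] (m : ℤ) (h : 2 * |m| < (N : ℤ)) :
    ((m : ZMod N)).valMinAbs = m := by
  rw [ZMod.valMinAbs_spec]
  refine ⟨rfl, ?_⟩
  have h1 := abs_lt.1 (show |m * 2| < (N : ℤ) by rw [abs_mul]; simpa [mul_comm] using h)
  exact ⟨h1.1, h1.2.le⟩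

/-- the entries of the jumps, seen on the torus -/
theorem vma_ijmp {d K N j : ℕ} [NeZero N] (hN : 2 ^ (K + 6) ≤ N) {l : Fin d → ℤ}
    (hl : l ∈ ThF d (K + 3)) (hj : j ≤ K + 3) (i : Fin d) :
    (((ijmp (K + 3) j l i : ℤ) : ZMod N)).valMinAbs = ijmp (K + 3) j l i := by
  apply vma_cast'
  have h1 := (ijmp_ann hl hj).2 i
  have h2 : (2 : ℤ) ^ (j + 1) ≤ 2 ^ (K + 4) := pow_le_pow_right₀ (by norm_num) (by omega)
  have h3 : ((2 ^ (K + 6) : ℕ) : ℤ) ≤ (N : ℤ) := by exact_mod_cast hN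
  have h4 : ((2 ^ (K + 6) : ℕ) : ℤ) = 4 * 2 ^ (K + 4) := by push_cast; ring
  have h5 : (0 : ℤ) < 2 ^ (K + 4) := by positivity
  linarith

theorem exists_sys (d : ℕ) (hd : 1 ≤ d) (s : ℝ) (hs : 0 < s) (K N : ℕ) [NeZero N]
    (hN : 2 ^ (K + 6) ≤ N) :
    ∃ S : JSys d N (K + 3) ((2 : ℝ) ^ (-((d : ℝ) + 2 * s))) (4 ^ d) (Th d (K + 3)),
      (∀ θ, S.m θ = mass d s (K + 3) θ.1) ∧ (∀ θ, (S.neg θ).1 = -θ.1) ∧
      (∀ j θ i, S.pi j θ i = ((ijmp (K + 3) j θ.1 i : ℤ) : ZMod N)) := by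
  classical
  refine ⟨{
    m := fun θ => mass d s (K + 3) θ.1
    neg := fun θ => ⟨-θ.1, neg_mem_ThF θ.2⟩
    pi := fun j θ i => ((ijmp (K + 3) j θ.1 i : ℤ) : ZMod N)
    m_nn := fun θ => (mass_pos hd hs θ.2).le
    neg_neg := fun θ => Subtype.ext (neg_neg θ.1)
    m_neg := fun θ => mass_neg θ.1
    pi_neg := fun j θ => by
      funext i
      rw [ijmp_neg, Pi.neg_apply, Pi.neg_apply, Int.cast_neg]
    pi_lo := fun j hj θ => by
      obtain ⟨i, hi⟩ := (ijmp_ann θ.2 hj).1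
      have h1 : ((((ijmp (K + 3) j θ.1 i : ℤ) : ZMod N)).valMinAbs).natAbs ≤
          nsup (fun i => (((ijmp (K + 3) j θ.1 i : ℤ) : ZMod N))) :=
        Finset.le_sup (f := fun i => ((((ijmp (K + 3) j θ.1 i : ℤ) : ZMod N)).valMinAbs).natAbs)
          (Finset.mem_univ i)
      refine le_trans ?_ h1
      rw [vma_ijmp hN θ.2 hj]
      zify
      exact hi
    pi_hi := fun j hj θ => by
      unfold nsup
      rw [Finset.sup_lt_iff (by positivity)]
      intro i _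
      rw [vma_ijmp hN θ.2 hj]
      zify
      exact (ijmp_ann θ.2 hj).2 i
    mass := by
      rw [Finset.sum_coe_sort (ThF d (K + 3)) (fun l => mass d s (K + 3) l)]
      exact mass_sum hd hs
    cover := fun j hj l hl hl' => ?_ }, fun θ => rfl, fun θ => rfl, fun j θ i => rfl⟩
  have h1 : ∃ i, (2 : ℤ) ^ j ≤ |(l i).valMinAbs| := by
    by_contra hcon
    push Not at hcon
    have h2 : nsup l < 2 ^ j := by
      unfold nsup
      rw [Finset.sup_lt_iff (by positivity)]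
      intro i _
      zify
      exact hcon i
    omega
  have h2 : ∀ i, |(l i).valMinAbs| < (2 : ℤ) ^ (j + 1) := by
    intro i
    have h3 : ((l i).valMinAbs).natAbs ≤ nsup l :=
      Finset.le_sup (f := fun i => ((l i).valMinAbs).natAbs) (Finset.mem_univ i)
    have h4 := lt_of_le_of_lt h3 hl'
    zify at h4
    exact h4
  refine (mass_cover hd hs hj (fun i => (l i).valMinAbs) h1 h2).trans ?_
  rw [← Finset.sum_coe_sort (ThF d (K + 3))
    (fun θ => if ijmp (K + 3) j θ = (fun i => (l i).valMinAbs) then mass d s (K + 3) θ else 0)]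
  refine Finset.sum_le_sum fun θ _ => ?_
  by_cases hθ : ijmp (K + 3) j θ.1 = fun i => (l i).valMinAbs
  · have h5 : (fun i => ((ijmp (K + 3) j θ.1 i : ℤ) : ZMod N)) = l := by
      funext i
      rw [hθ]
      exact ZMod.coe_valMinAbs (l i)
    rw [if_pos hθ, if_pos h5]
  · rw [if_neg hθ]
    split_ifs
    · exact (mass_pos hd hs θ.2).le
    · exact le_rfl

end KD.II.C4
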